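import Pool.Agent.Work.MP_db9399_bg.Base
import Pool.Agent.Work.MP_db9399_px_helper83.SAMP
import Pool.Agent.Work.MP_db9399_px_helper89.WALK

/-! # THEOREM BIG, block CODX: two sets given by one short walk -/

set_option autoImplicit false

namespace Pool.Agent.Work.MP_db9399_bg.helper67

open Finset Classical
open Pool.Agent.Work.MP_db9399_all (nb)
open Pool.Agent.Work.MP_db9399_px (LWalk hit ee)
open Pool.Agent.Work.MP_db9399_sc (Conn)

universe u

theorem dc {V : Type u} [Fintype V] (F : SimpleGraph V) (A B : Finset V) :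
    ∑ v ∈ A, (nb F v ∩ B).card = ∑ w ∈ B, (nb F w ∩ A).card := by
  have h : ∀ (A B : Finset V), ∑ v ∈ A, (nb F v ∩ B).card =
      ∑ v ∈ A, ∑ w ∈ B, if F.Adj v w then 1 else 0 := by
    intro A B
    refine Finset.sum_congr rfl fun v _ => ?_
    rw [Finset.sum_boole, Nat.cast_id]
    congr 1
    ext s
    simp [mem_nb, and_comm]
  rw [h, h, Finset.sum_comm]
  refine Finset.sum_congr rfl fun v _ => Finset.sum_congr rfl fun w _ => ?_
  simp only [F.adj_comm]

theorem walk3 {V : Type u} (G : SimpleGraph V) (a0 a1 a2 a3 : V) (h1 : a1 = a0 ∨ G.Adj a0 a1)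
    (h2 : a2 = a1 ∨ G.Adj a1 a2) (h3 : a3 = a2 ∨ G.Adj a2 a3) :
    ∃ w : ℕ → V, LWalk G 4 w ∧ w 0 = a0 ∧ w 4 = a3 := by
  refine ⟨fun j => if j = 0 then a0 else if j = 1 then a1 else if j = 2 then a2 else a3,
    ?_, rfl, rfl⟩
  intro i hi
  interval_cases i
  · simpa using h1
  · simpa using h2
  · simpa using h3
  · left; simp

/-- the walk through `U` if `U ⊆ X`, all but the vertices of `T` .. have neighbours in `U` -/
theorem walk_conn {V : Type u} [Fintype V] (G F : SimpleGraph V) (hFG : F ≤ G) (X U : Finset V)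
    (hcn : Conn F X) (hUX : U ⊆ X) (h2 : ∀ v ∈ X, ∃ t, t ∈ X ∧ F.Adj v t)
    (hcov : ∀ v ∈ X, ∃ x ∈ U, G.Adj v x) (hX : X.Nonempty) :
    ∃ w : ℕ → V, LWalk G (8 * U.card) w ∧ 0 < U.card ∧ ∀ v ∈ U, ∃ i ≤ 8 * U.card, w i = v := by
  obtain ⟨x, hx⟩ : U.Nonempty := by
    obtain ⟨v, hv⟩ := hX
    obtain ⟨x, hx, _⟩ := hcov v hv
    exact ⟨x, hx⟩
  choose! tf htf using h2
  obtain ⟨w, hw1, hw2, hw3⟩ := Pool.Agent.Work.MP_db9399_px.helper89.stmt_WALK.{u} G U x hx
    (by
      intro U1 hU1 hxU1 hne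
      obtain ⟨C1, hC1⟩ : ∃ C1 : Finset V, C1 = X.filter (fun v => ∃ y ∈ U1, G.Adj v y) :=
        ⟨_, rfl⟩
      by_cases hCC : C1 = X
      · obtain ⟨x', hx', hx'1⟩ : ∃ x' ∈ U, x' ∉ U1 := by
          by_contra hcon
          push Not at hcon
          exact hne (Finset.Subset.antisymm hU1 hcon)
        obtain ⟨h1, h2⟩ := htf x' (hUX hx')
        have h3 : tf x' ∈ C1 := by rw [hCC]; exact h1
        rw [hC1, mem_filter] at h3
        obtain ⟨_, y, hy, hya⟩ := h3
        refine ⟨y, hy, x', hx', hx'1, ?_⟩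
        exact walk3 G y (tf x') x' x' (Or.inr hya.symm) (Or.inr (hFG h2).symm) (Or.inl rfl)
      · have h1 : C1 ⊆ X := by
          rw [hC1]
          exact Finset.filter_subset _ _
        have h2 : C1.Nonempty := by
          obtain ⟨h3, h4⟩ := htf x (hUX hx)
          refine ⟨tf x, ?_⟩
          rw [hC1, mem_filter]
          exact ⟨h3, x, hxU1, (hFG h4).symm⟩
        obtain ⟨v, hv, v', hv', hv'1, hvv'⟩ := hcn C1 h1 h2 hCC
        rw [hC1, mem_filter] at hv
        obtain ⟨_, y, hy, hya⟩ := hv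
        obtain ⟨y', hy', hya'⟩ := hcov v' hv'
        refine ⟨y, hy, y', hy', ?_, ?_⟩
        · intro h
          apply hv'1
          rw [hC1, mem_filter]
          exact ⟨hv', y', h, hya'⟩
        · exact walk3 G y v v' y' (Or.inr hya.symm) (Or.inr (hFG hvv')) (Or.inr hya'))
  exact ⟨w, hw1, Finset.card_pos.2 ⟨x, hx⟩, hw3⟩

/-- two bounds for the logarithm -/
theorem log_le_of {c x : ℝ} (hc : 0 < c) (h1 : 1 ≤ x) (h : 4 * c ^ 2 ≤ x) :
    c * Real.log x ≤ x := by
  have hx : 0 < x := by linarith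
  have h4 : Real.log (√x) ≤ √x := by
    have := Real.log_le_sub_one_of_pos (Real.sqrt_pos.2 hx)
    linarith
  have h5 : Real.log x = 2 * Real.log (√x) := by
    rw [Real.log_sqrt hx.le]
    ring
  have h6 : √x * √x = x := Real.mul_self_sqrt hx.le
  have h7 : 2 * c ≤ √x := by
    apply Real.le_sqrt_of_sq_le
    linarith
  have h8 : 0 ≤ √x := Real.sqrt_nonneg x
  rw [h5]
  calc c * (2 * Real.log √x) ≤ c * (2 * √x) := by
        apply mul_le_mul_of_nonneg_left _ hc.le
        linarith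
    _ = (2 * c) * √x := by ring
    _ ≤ √x * √x := mul_le_mul_of_nonneg_right h7 h8
    _ = x := h6

theorem le_log_of {K x : ℝ} (hx : 0 < x) (h : Real.exp K ≤ x) : K ≤ Real.log x := by
  rwa [Real.le_log_iff_exp_le hx]

/-- the choice of the parameters -/
theorem params (a ε : ℝ) (ha : 0 < a) (hε : 0 < ε) : ∃ d0 : ℕ, ∀ d : ℕ, d0 ≤ d →
    ∃ (q1 : ℕ) (θ : ℝ), 0 < q1 ∧ 1 ≤ θ ∧ θ * q1 = a * d / 4 ∧ 1 ≤ Real.log d ∧
      18 / √θ * (24 / a) ≤ ε ∧ Real.exp (-θ) ≤ 1 / (d : ℝ) ^ 2 ∧ a * d ≤ 16 * Real.log d * q1 ∧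
      8 ≤ a * d ∧ 36 ≤ a * d ∧ 1 ≤ d := by
  refine ⟨max (max ⌈4 * (8 / a) ^ 2⌉₊ ⌈Real.exp ((432 / (a * ε)) ^ 2 + 1)⌉₊) (max ⌈36 / a⌉₊ 3), ?_⟩
  intro d hd
  have hd1 : 4 * (8 / a) ^ 2 ≤ (d : ℝ) := (Nat.le_ceil _).trans (by
    exact_mod_cast (le_max_left _ _).trans ((le_max_left _ _).trans hd))
  have hd2 : Real.exp ((432 / (a * ε)) ^ 2 + 1) ≤ (d : ℝ) := (Nat.le_ceil _).trans (by
    exact_mod_cast (le_max_right _ _).trans ((le_max_left _ _).trans hd))
  have hd3 : 36 / a ≤ (d : ℝ) := (Nat.le_ceil _).trans (by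
    exact_mod_cast (le_max_left _ _).trans ((le_max_right _ _).trans hd))
  have hd4 : 3 ≤ d := (le_max_right _ _).trans ((le_max_right _ _).trans hd)
  have hdR : (3 : ℝ) ≤ d := by exact_mod_cast hd4
  have hdpos : (0 : ℝ) < d := by linarith
  have hlog : (432 / (a * ε)) ^ 2 + 1 ≤ Real.log d := le_log_of hdpos hd2
  have hsq : 0 ≤ (432 / (a * ε)) ^ 2 := by positivity
  set l0 : ℝ := Real.log d with hl0
  have hl1 : 1 ≤ l0 := by linarith
  have hl2 : 8 / a * l0 ≤ d := log_le_of (by positivity) (by linarith) hd1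
  have hl3 : 8 * l0 ≤ a * d := by
    have := mul_le_mul_of_nonneg_left hl2 ha.le
    calc 8 * l0 = a * (8 / a * l0) := by field_simp
      _ ≤ a * d := this
  set y : ℝ := a * d / (8 * l0) with hy
  have hy1 : 1 ≤ y := by
    rw [hy, le_div_iff₀ (by positivity)]
    linarith
  have hq1 : ((⌊y⌋₊ : ℕ) : ℝ) ≤ y := Nat.floor_le (by linarith)
  have hq2 : y < (⌊y⌋₊ : ℕ) + 1 := Nat.lt_floor_add_one _
  have hq0 : 0 < ⌊y⌋₊ := Nat.floor_pos.2 hy1
  have hq0R : (1 : ℝ) ≤ (⌊y⌋₊ : ℕ) := by exact_mod_cast hq0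
  have hqp : (0 : ℝ) < (⌊y⌋₊ : ℕ) := by linarith
  have hθ2 : 2 * l0 ≤ a * d / (4 * (⌊y⌋₊ : ℕ)) := by
    rw [le_div_iff₀ (by positivity)]
    have h1 : 8 * l0 * (⌊y⌋₊ : ℕ) ≤ 8 * l0 * y := mul_le_mul_of_nonneg_left hq1 (by positivity)
    have h2 : 8 * l0 * y = a * d := by
      rw [hy]
      field_simp
    linarith
  refine ⟨⌊y⌋₊, a * d / (4 * (⌊y⌋₊ : ℕ)), hq0, by linarith, ?_, hl1, ?_, ?_, ?_, ?_, ?_, by omega⟩
  · field_simp
  · have h1 : 432 / (a * ε) ≤ √(a * d / (4 * (⌊y⌋₊ : ℕ))) := by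
      apply Real.le_sqrt_of_sq_le
      linarith
    have h2 : 0 < 432 / (a * ε) := by positivity
    calc 18 / √(a * d / (4 * (⌊y⌋₊ : ℕ))) * (24 / a) ≤ 18 / (432 / (a * ε)) * (24 / a) := by
          apply mul_le_mul_of_nonneg_right _ (by positivity)
          exact div_le_div_of_nonneg_left (by norm_num) h2 h1
      _ = ε := by field_simp; norm_num
  · have h1 : Real.exp (-(a * d / (4 * (⌊y⌋₊ : ℕ)))) ≤ Real.exp (-(2 * l0)) :=
      Real.exp_le_exp.2 (by linarith)
    refine h1.trans (le_of_eq ?_)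
    rw [Real.exp_neg, hl0, one_div]
    congr 1
    rw [two_mul, Real.exp_add, Real.exp_log hdpos]
    ring
  · have h2 : 8 * l0 * y = a * d := by
      rw [hy]
      field_simp
    have h3 : y ≤ 2 * (⌊y⌋₊ : ℕ) := by linarith
    have h4 : 8 * l0 * y ≤ 8 * l0 * (2 * (⌊y⌋₊ : ℕ)) := mul_le_mul_of_nonneg_left h3 (by positivity)
    linarith
  · rw [div_le_iff₀ ha] at hd3
    linarith
  · rw [div_le_iff₀ ha] at hd3
    linarith

/-- one of the four inequalities: `A` is almost the set of the vertices with many sampled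
neighbours in `A'` -/
theorem near_of {V : Type u} [Fintype V] {T β : Type} [Fintype β] (G : SimpleGraph V)
    (lab : V → T) (P : β → Finset T) (R : β → β → Prop) (q ex θ : ℝ) (A A' Rs : Finset V)
    (Bd : Finset V)
    (hBd : ∀ b v, lab v ∈ P b → v ∉ Bd →
      (q / 2 < ((nb G v ∩ cl lab (PN P R b) ∩ A').card : ℝ) →
        θ < ((nb G v ∩ (Rs ∩ cl lab (PN P R b))).card : ℝ)) ∧
      (((nb G v ∩ cl lab (PN P R b) ∩ A').card : ℝ) < q / 8 →
        ¬ (θ < ((nb G v ∩ (Rs ∩ cl lab (PN P R b))).card : ℝ))))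
    (hc : (Bd.card : ℝ) ≤ ex) (hS : Sep G lab P R q ex A A') (b : β) :
    Near (A ∩ cl lab (P b)) (hit G θ (Rs ∩ cl lab (PN P R b)) ∩ cl lab (P b)) (4 * ex) := by
  obtain ⟨h1, h2⟩ := hS b
  have hmh : ∀ w, w ∈ hit G θ (Rs ∩ cl lab (PN P R b)) ↔
      θ < ((nb G w ∩ (Rs ∩ cl lab (PN P R b))).card : ℝ) := by
    intro w
    unfold hit
    simp
  have e1 : (((A ∩ cl lab (P b)) \
      (hit G θ (Rs ∩ cl lab (PN P R b)) ∩ cl lab (P b))).card : ℝ) ≤ ex + ex := by
    refine le_trans ?_ (add_le_add h1 hc)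
    have : ((A ∩ cl lab (P b)) \ (hit G θ (Rs ∩ cl lab (PN P R b)) ∩ cl lab (P b))) ⊆
        (A.filter (fun v => lab v ∈ P b ∧
          ((nb G v ∩ cl lab (PN P R b) ∩ A').card : ℝ) ≤ q / 2)) ∪ Bd := by
      intro v hv
      rw [mem_sdiff, mem_inter, mem_inter, mem_cl, hmh] at hv
      obtain ⟨⟨hvA, hvb⟩, hvn⟩ := hv
      rw [mem_union, mem_filter]
      by_contra hcon
      push Not at hcon
      have h3 := hcon.1 hvA hvb
      exact hvn ⟨(hBd b v hvb hcon.2).1 h3, hvb⟩
    have h4 := (card_le_card this).trans (card_union_le _ _)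
    exact_mod_cast h4
  have e2 : (((hit G θ (Rs ∩ cl lab (PN P R b)) ∩ cl lab (P b)) \
      (A ∩ cl lab (P b))).card : ℝ) ≤ ex + ex := by
    refine le_trans ?_ (add_le_add h2 hc)
    have : ((hit G θ (Rs ∩ cl lab (PN P R b)) ∩ cl lab (P b)) \ (A ∩ cl lab (P b))) ⊆
        (univ.filter (fun v => v ∉ A ∧ lab v ∈ P b ∧
          q / 8 ≤ ((nb G v ∩ cl lab (PN P R b) ∩ A').card : ℝ))) ∪ Bd := by
      intro v hv
      rw [mem_sdiff, mem_inter, mem_inter, mem_cl, hmh] at hv
      obtain ⟨⟨hvh, hvb⟩, hvn⟩ := hv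
      rw [mem_union, mem_filter]
      by_contra hcon
      push Not at hcon
      have h3 : v ∉ A := fun h => hvn ⟨h, hvb⟩
      have h4 := hcon.1 (mem_univ _) h3 hvb
      exact (hBd b v hvb hcon.2).2 h4 hvh
    have h4 := (card_le_card this).trans (card_union_le _ _)
    exact_mod_cast h4
  unfold Near
  linarith

/-- the index set of the sample -/
noncomputable def SS {V : Type u} [Fintype V] {T β : Type} [Fintype β] (G : SimpleGraph V)
    (lab : V → T) (P : β → Finset T) (R : β → β → Prop) (X A1 A2 : Finset V) (w : V × Fin 3) :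
    Finset V :=
  if w.2 = 2 then nb G w.1 ∩ X
  else (if h : ∃ b, lab w.1 ∈ P b then nb G w.1 ∩ cl lab (PN P R h.choose) else ∅) ∩
    (if w.2 = 0 then A1 else A2)

theorem SS_eq {V : Type u} [Fintype V] {T β : Type} [Fintype T] [Fintype β] {G : SimpleGraph V}
    {lab : V → T} {P : β → Finset T} {R : β → β → Prop} {X A1 A2 : Finset V} {n L : ℕ} {p : ℝ}
    (hP : IsPat P R n L p) {b : β} {v : V} (h : lab v ∈ P b) (i : Fin 3) (hi : i ≠ 2) :
    SS G lab P R X A1 A2 (v, i) = nb G v ∩ cl lab (PN P R b) ∩ (if i = 0 then A1 else A2) := by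
  unfold SS
  have hex : ∃ b, lab v ∈ P b := ⟨b, h⟩
  have hb : hex.choose = b := hP.uniq hex.choose_spec h
  simp only [if_neg hi]
  rw [dif_pos hex, hb]

theorem stmt_CODX : Stmt_CODX.{u} := by
  intro n p ε hn hp hp1 hε
  have ha : 0 < (n : ℝ) * p := by positivity
  obtain ⟨d0, hpar⟩ := params ((n : ℝ) * p) ε ha hε
  refine ⟨8 * (168 / ((n : ℝ) * p) + 1), d0, by positivity, ?_⟩
  intro T β _ _ P R L V _ G F d lab X A1 A2 hPat hd hdeg hFG hcn hA1 hA2 hX hX30 hS1 hS2
  obtain ⟨q1, θ, hq1, hθ1, hθq, hl1, hsq, hexp, hq16, h8, h36, hd1⟩ := hpar d hd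
  set a : ℝ := (n : ℝ) * p with hadef
  have hdR : (1 : ℝ) ≤ d := by exact_mod_cast hd1
  have hdpos : (0 : ℝ) < d := by linarith
  have hXc : (2 : ℝ) ≤ X.card := by linarith
  have hXc2 : 2 ≤ X.card := by exact_mod_cast hXc
  have hXne : X.Nonempty := Finset.card_pos.1 (by omega)
  have hnbr : ∀ v ∈ X, ∃ t, t ∈ X ∧ F.Adj v t := by
    intro v hv
    have h1 : ({v} : Finset V) ≠ X := by
      intro h
      have h2 : X.card = 1 := by rw [← h]; simp
      omega
    obtain ⟨a, ha, b, hb, _, hab⟩ := hcn {v} (by simpa using hv) (by simp) h1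
    rw [mem_singleton] at ha
    subst ha
    exact ⟨b, hb, hab⟩
  -- the sum of the sizes
  have hsub : ∀ w, SS G lab P R X A1 A2 w ⊆ nb G w.1 ∩ X := by
    intro w
    unfold SS
    split_ifs
    · exact subset_rfl
    · intro x hx
      rw [mem_inter, mem_inter] at hx
      rw [mem_inter]
      exact ⟨hx.1.1, hA1 hx.2⟩
    · intro x hx
      rw [mem_inter, mem_inter] at hx
      rw [mem_inter]
      exact ⟨hx.1.1, hA2 hx.2⟩
    · intro x hx
      simp at hx
    · intro x hx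
      simp at hx
  have htot : ∑ w : V × Fin 3, ((SS G lab P R X A1 A2 w).card : ℝ) ≤ 3 * (d * X.card) := by
    have h0 : ∑ w : V × Fin 3, ((SS G lab P R X A1 A2 w).card : ℝ) ≤
        ∑ w : V × Fin 3, ((nb G w.1 ∩ X).card : ℝ) := by
      apply Finset.sum_le_sum
      intro w _
      exact_mod_cast card_le_card (hsub w)
    refine h0.trans ?_
    rw [Fintype.sum_prod_type]
    simp only [Finset.sum_const, Finset.card_univ, Fintype.card_fin, nsmul_eq_mul]
    rw [← Finset.mul_sum]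
    have h1 : ∑ w : V, ((nb G w ∩ X).card : ℝ) = ∑ v ∈ X, ((nb G v ∩ univ).card : ℝ) := by
      exact_mod_cast dc G univ X
    rw [h1]
    have h2 : ∑ v ∈ X, ((nb G v ∩ univ).card : ℝ) ≤ ∑ v ∈ X, (d : ℝ) := by
      apply Finset.sum_le_sum
      intro v _
      rw [Finset.inter_univ]
      exact_mod_cast hdeg v
    rw [Finset.sum_const, nsmul_eq_mul] at h2
    push_cast
    linarith
  have hpos : 0 < ∑ w ∈ (univ : Finset (V × Fin 3)), (SS G lab P R X A1 A2 w).card := by
    obtain ⟨v, hv⟩ := hXne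
    obtain ⟨t, ht, hvt⟩ := hnbr v hv
    have h1 : 0 < (SS G lab P R X A1 A2 (v, 2)).card := by
      unfold SS
      simp only [if_true]
      apply Finset.card_pos.2
      exact ⟨t, by rw [mem_inter, mem_nb]; exact ⟨hFG hvt, ht⟩⟩
    have h2 : (SS G lab P R X A1 A2 (v, 2)).card ≤
        ∑ w ∈ (univ : Finset (V × Fin 3)), (SS G lab P R X A1 A2 w).card :=
      Finset.single_le_sum (f := fun w => (SS G lab P R X A1 A2 w).card)
        (fun _ _ => Nat.zero_le _) (mem_univ _)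
    omega
  obtain ⟨Rs, hRX, hRc, hRm, hRe⟩ := Pool.Agent.Work.MP_db9399_px.helper83.stmt_SAMP.{u}
    (W := V × Fin 3) X univ (SS G lab P R X A1 A2) q1 θ hq1 hθ1 hXne
    (fun w _ => (hsub w).trans Finset.inter_subset_right) hpos
  rw [hθq] at hRm hRe
  -- misclassified vertices
  obtain ⟨Bp, hBp⟩ : ∃ E : Finset (V × Fin 3), E = (univ.filter (fun w : V × Fin 3 =>
    ¬ (θ < ((SS G lab P R X A1 A2 w ∩ Rs).card : ℝ) ↔
      a * d / 4 < ((SS G lab P R X A1 A2 w).card : ℝ)))).filter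
      (fun w => a * d / 8 ≤ |((SS G lab P R X A1 A2 w).card : ℝ) - a * d / 4|) := ⟨_, rfl⟩
  have hBpc : (Bp.card : ℝ) ≤ ε * X.card := by
    have h1 : ∑ w ∈ Bp, a * d / 8 ≤ ∑ w ∈ univ.filter (fun w : V × Fin 3 =>
        ¬ (θ < ((SS G lab P R X A1 A2 w ∩ Rs).card : ℝ) ↔
          a * d / 4 < ((SS G lab P R X A1 A2 w).card : ℝ))),
        |((SS G lab P R X A1 A2 w).card : ℝ) - a * d / 4| := by
      refine le_trans (Finset.sum_le_sum
        (g := fun w => |((SS G lab P R X A1 A2 w).card : ℝ) - a * d / 4|) ?_)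
        (Finset.sum_le_sum_of_subset_of_nonneg ?_ (fun _ _ _ => abs_nonneg _))
      · intro w hw
        rw [hBp, mem_filter] at hw
        exact hw.2
      · rw [hBp]
        exact Finset.filter_subset _ _
    have h2 := h1.trans hRm
    rw [Finset.sum_const, nsmul_eq_mul] at h2
    have h3 : 18 / √θ * ∑ w ∈ (univ : Finset (V × Fin 3)), ((SS G lab P R X A1 A2 w).card : ℝ) ≤
        18 / √θ * (3 * (d * X.card)) := mul_le_mul_of_nonneg_left htot (by positivity)
    have h4 : (Bp.card : ℝ) * (a * d / 8) ≤ (ε * X.card) * (a * d / 8) := by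
      calc (Bp.card : ℝ) * (a * d / 8) ≤ 18 / √θ * (3 * (d * X.card)) := h2.trans h3
        _ = (18 / √θ * (24 / a)) * (X.card * (a * d / 8)) := by field_simp; ring
        _ ≤ ε * (X.card * (a * d / 8)) := by
            apply mul_le_mul_of_nonneg_right hsq
            positivity
        _ = (ε * X.card) * (a * d / 8) := by ring
    exact le_of_mul_le_mul_right h4 (by positivity)
  -- the two neighbourhood sets
  have hkey : ∀ (i : Fin 3), i ≠ 2 → ∀ b v, lab v ∈ P b →
      v ∉ univ.filter (fun v => (v, i) ∈ Bp) →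
      (a * d / 2 < ((nb G v ∩ cl lab (PN P R b) ∩ (if i = 0 then A1 else A2)).card : ℝ) →
        θ < ((nb G v ∩ ((Rs ∩ (if i = 0 then A1 else A2)) ∩ cl lab (PN P R b))).card : ℝ)) ∧
      (((nb G v ∩ cl lab (PN P R b) ∩ (if i = 0 then A1 else A2)).card : ℝ) < a * d / 8 →
        ¬ (θ < ((nb G v ∩ ((Rs ∩ (if i = 0 then A1 else A2)) ∩
          cl lab (PN P R b))).card : ℝ))) := by
    intro i hi b v hvb hvB
    rw [mem_filter] at hvB
    push Not at hvB
    have h1 := hvB (mem_univ _)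
    rw [hBp, mem_filter, mem_filter] at h1
    rw [SS_eq hPat hvb i hi] at h1
    have h2 : nb G v ∩ cl lab (PN P R b) ∩ (if i = 0 then A1 else A2) ∩ Rs =
        nb G v ∩ ((Rs ∩ (if i = 0 then A1 else A2)) ∩ cl lab (PN P R b)) := by
      ext x
      simp only [mem_inter]
      tauto
    rw [h2] at h1
    have hap : 0 < a * d := by positivity
    constructor
    · intro h3
      by_contra h4
      apply h1
      refine ⟨⟨mem_univ _, ?_⟩, ?_⟩
      · intro h5
        exact h4 (h5.2 (by linarith))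
      · refine le_trans ?_ (le_abs_self _)
        linarith
    · intro h3 h4
      apply h1
      refine ⟨⟨mem_univ _, ?_⟩, ?_⟩
      · intro h5
        have := h5.1 h4
        linarith
      · refine le_trans ?_ (neg_le_abs _)
        linarith
  have hBi : ∀ i : Fin 3, ((univ.filter (fun v => (v, i) ∈ Bp)).card : ℝ) ≤ ε * X.card := by
    intro i
    refine le_trans ?_ hBpc
    have : (univ.filter (fun v => (v, i) ∈ Bp)).card ≤ Bp.card := by
      apply Finset.card_le_card_of_injOn (fun v => (v, i))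
      · intro v hv
        have hv' := (mem_filter.1 (Finset.mem_coe.1 hv)).2
        exact hv'
      · intro v _ v' _ h
        simpa using h
    exact_mod_cast this
  -- missed vertices
  obtain ⟨Ms, hMs⟩ : ∃ E : Finset V, E = X.filter (fun v => nb G v ∩ Rs = ∅) := ⟨_, rfl⟩
  have hMsc : (Ms.card : ℝ) ≤ 30 + X.card / d := by
    have h1 : Ms ⊆ (X.filter (fun v => ((nb G v ∩ X).card : ℝ) ≤ n * p * d / 4)) ∪
        (univ.filter (fun w : V × Fin 3 => a * d / 4 < ((SS G lab P R X A1 A2 w).card : ℝ) ∧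
          SS G lab P R X A1 A2 w ∩ Rs = ∅)).image Prod.fst := by
      intro v hv
      rw [hMs, mem_filter] at hv
      rw [mem_union, mem_filter, mem_image]
      by_cases hvE : ((nb G v ∩ X).card : ℝ) ≤ n * p * d / 4
      · exact Or.inl ⟨hv.1, hvE⟩
      · refine Or.inr ⟨(v, 2), ?_, rfl⟩
        rw [mem_filter]
        have h2 : SS G lab P R X A1 A2 (v, 2) = nb G v ∩ X := by
          unfold SS
          simp
        rw [h2]
        refine ⟨mem_univ _, not_le.1 hvE, ?_⟩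
        rw [Finset.eq_empty_iff_forall_notMem]
        intro x hx
        rw [mem_inter, mem_inter] at hx
        have : x ∈ nb G v ∩ Rs := mem_inter.2 ⟨hx.1.1, hx.2⟩
        rw [hv.2] at this
        simp at this
    have h2 := (Finset.card_le_card h1).trans (Finset.card_union_le _ _)
    have h3 : (Ms.card : ℝ) ≤
        ((X.filter (fun v => ((nb G v ∩ X).card : ℝ) ≤ n * p * d / 4)).card : ℝ) +
        ((univ.filter (fun w : V × Fin 3 => a * d / 4 < ((SS G lab P R X A1 A2 w).card : ℝ) ∧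
          SS G lab P R X A1 A2 w ∩ Rs = ∅)).card : ℝ) := by
      have := h2.trans (Nat.add_le_add_left Finset.card_image_le _)
      exact_mod_cast this
    have h4 : ((X.filter (fun v => ((nb G v ∩ X).card : ℝ) ≤ n * p * d / 4)).card : ℝ) ≤ 30 := by
      exact_mod_cast hX30
    have h5 : 3 * Real.exp (-θ) / (a * d / 4) *
        ∑ w ∈ (univ : Finset (V × Fin 3)), ((SS G lab P R X A1 A2 w).card : ℝ) ≤
        3 * (1 / (d : ℝ) ^ 2) / (a * d / 4) * (3 * (d * X.card)) := by
      apply mul_le_mul _ htot (Finset.sum_nonneg fun _ _ => Nat.cast_nonneg _) (by positivity)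
      apply div_le_div_of_nonneg_right _ (by positivity)
      linarith
    have h6 : 3 * (1 / (d : ℝ) ^ 2) / (a * d / 4) * (3 * (d * X.card)) =
        (36 / (a * d)) * (X.card / d) := by
      field_simp
      norm_num
    have h7 : (36 / (a * d)) * (X.card / (d : ℝ)) ≤ 1 * (X.card / d) := by
      apply mul_le_mul_of_nonneg_right _ (by positivity)
      rw [div_le_one (by positivity)]
      exact h36
    linarith
  choose! tf htf using hnbr
  obtain ⟨Tm, hT⟩ : ∃ T : Finset V, T = Ms.image tf := ⟨_, rfl⟩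
  have hTX : Tm ⊆ X := by
    intro t ht
    rw [hT, mem_image] at ht
    obtain ⟨v, hv, rfl⟩ := ht
    rw [hMs, mem_filter] at hv
    exact (htf v hv.1).1
  have hTc : Tm.card ≤ Ms.card := by
    rw [hT]
    exact Finset.card_image_le
  have hcov : ∀ v ∈ X, ∃ x ∈ Rs ∪ Tm, G.Adj v x := by
    intro v hv
    by_cases h : nb G v ∩ Rs = ∅
    · refine ⟨tf v, ?_, hFG (htf v hv).2⟩
      rw [mem_union, hT, mem_image]
      exact Or.inr ⟨v, by rw [hMs, mem_filter]; exact ⟨hv, h⟩, rfl⟩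
    · obtain ⟨x, hx⟩ := Finset.nonempty_iff_ne_empty.2 h
      rw [mem_inter, mem_nb] at hx
      exact ⟨x, mem_union_left _ hx.2, hx.1⟩
  obtain ⟨w, hw1, hw2, hw3⟩ := walk_conn G F hFG X (Rs ∪ Tm) hcn (Finset.union_subset hRX hTX)
    (fun v hv => ⟨tf v, htf v hv⟩) hcov hXne
  refine ⟨Rs ∩ A1, Rs ∩ A2, 8 * (Rs ∪ Tm).card, w, θ, ?_, hw1, by omega, by linarith, ?_, ?_, ?_⟩
  · intro h
    rw [h]
  · intro v hv
    apply hw3 v
    rw [mem_union, mem_inter, mem_inter] at hv
    rcases hv with hv | hv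
    · exact mem_union_left _ hv.1
    · exact mem_union_left _ hv.1
  · have h1 : (Rs ∪ Tm).card ≤ Rs.card + Ms.card :=
      (Finset.card_union_le _ _).trans (Nat.add_le_add_left hTc _)
    have h2 : ((Rs ∪ Tm).card : ℝ) ≤ Rs.card + Ms.card := by exact_mod_cast h1
    set l0 := Real.log (d : ℝ) with hl0
    have h3 : (Rs.card : ℝ) * d ≤ 48 / a * (l0 * X.card) := by
      have h4 : (Rs.card : ℝ) * (a * d) ≤ 48 * (l0 * X.card) := by
        calc (Rs.card : ℝ) * (a * d) ≤ Rs.card * (16 * l0 * q1) :=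
              mul_le_mul_of_nonneg_left hq16 (Nat.cast_nonneg _)
          _ = 16 * l0 * (Rs.card * q1) := by ring
          _ ≤ 16 * l0 * (3 * X.card) := mul_le_mul_of_nonneg_left hRc (by positivity)
          _ = 48 * (l0 * X.card) := by ring
      calc (Rs.card : ℝ) * d = (Rs.card : ℝ) * (a * d) / a := by field_simp
        _ ≤ 48 * (l0 * X.card) / a := div_le_div_of_nonneg_right h4 ha.le
        _ = 48 / a * (l0 * X.card) := by ring
    have h4 : (Ms.card : ℝ) * d ≤ (120 / a + 1) * (l0 * X.card) := by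
      have h5 : (Ms.card : ℝ) * d ≤ (30 + X.card / d) * d :=
        mul_le_mul_of_nonneg_right hMsc hdpos.le
      have h6 : (30 + (X.card : ℝ) / d) * d = 30 * d + X.card := by
        field_simp
      have h7 : 30 * (d : ℝ) ≤ 120 / a * X.card := by
        have : (d : ℝ) ≤ 4 / a * X.card := by
          calc (d : ℝ) = a * d / a := by field_simp
            _ ≤ 4 * X.card / a := div_le_div_of_nonneg_right hX ha.le
            _ = 4 / a * X.card := by ring
        calc 30 * (d : ℝ) ≤ 30 * (4 / a * X.card) := by linarith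
          _ = 120 / a * X.card := by ring
      have h8 : (120 / a + 1) * (X.card : ℝ) ≤ (120 / a + 1) * (l0 * X.card) := by
        apply mul_le_mul_of_nonneg_left _ (by positivity)
        nlinarith
      linarith
    push_cast
    calc 8 * ((Rs ∪ Tm).card : ℝ) * d ≤ 8 * ((Rs.card + Ms.card) * d) := by
          have : ((Rs ∪ Tm).card : ℝ) * d ≤ (Rs.card + Ms.card) * d :=
            mul_le_mul_of_nonneg_right h2 hdpos.le
          linarith
      _ ≤ 8 * (48 / a * (l0 * X.card) + (120 / a + 1) * (l0 * X.card)) := by linarith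
      _ = 8 * (168 / a + 1) * (l0 * X.card) := by ring
  · intro b
    have e1 : 4 * ε * (X.card : ℝ) = 4 * (ε * X.card) := by ring
    rw [e1]
    constructor
    · exact near_of G lab P R (a * d) (ε * X.card) θ A1 A2 (Rs ∩ A2)
        (univ.filter (fun v => (v, (1 : Fin 3)) ∈ Bp))
        (by simpa using hkey 1 (by decide)) (hBi 1) hS1 b
    · exact near_of G lab P R (a * d) (ε * X.card) θ A2 A1 (Rs ∩ A1)
        (univ.filter (fun v => (v, (0 : Fin 3)) ∈ Bp))
        (by simpa using hkey 0 (by decide)) (hBi 0) hS2 b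

end Pool.Agent.Work.MP_db9399_bg.helper67
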