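import Pool.Agent.Work.MP_db9399_bg.Base
import Pool.Agent.Work.MP_db9399_px_helper35.Final

/-! # THEOREM BIG, block LAB: random labels -/

set_option autoImplicit false

namespace Pool.Agent.Work.MP_db9399_bg.helper67

open Finset Classical
open Pool.Agent.Work.MP_db9399_all (nb)
open Pool.Agent.Work.MP_db9399_px (LWalk hit ee ff GoodF cc atm per Blocks)

universe u

theorem stmt_LAB : Stmt_LAB.{u} := by
  intro T _ _ σ c1 hσ hc1
  have hM : 0 < Fintype.card T := Fintype.card_pos
  obtain ⟨d0, hd01, h⟩ := Pool.Agent.Work.MP_db9399_px.llx_holds.{u} (Fintype.card T)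
    (min σ 1 / 2) (min σ 1) c1 hM (by positivity) (by
      have : min σ 1 ≤ 1 := min_le_right _ _
      linarith) (lt_min hσ one_pos) (min_le_right _ _) hc1
  refine ⟨d0, ?_⟩
  intro V _ G d hd hdeg
  haveI : NeZero (Fintype.card T) := ⟨hM.ne'⟩
  obtain ⟨f, hf1, hf2⟩ := h G d id (fun _ => 0) hd hdeg (by
    intro v w h1 _
    exact h1)
  obtain ⟨e⟩ : Nonempty (T ≃ Fin (Fintype.card T)) := ⟨Fintype.equivFin T⟩
  have hcl : ∀ P : Finset T, cl (fun v => e.symm (atm (Fintype.card T) id (fun _ => 0) f v)) P =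
      cc (Fintype.card T) id (fun _ => 0) f (P.map e.toEmbedding) := by
    intro P
    ext v
    unfold cl cc
    rw [mem_filter, mem_filter]
    simp only [mem_univ, true_and, mem_map, Equiv.coe_toEmbedding]
    constructor
    · intro h1
      exact ⟨_, h1, by simp⟩
    · rintro ⟨t, h1, h2⟩
      rw [← h2]
      simpa using h1
  have hden : ∀ P : Finset T, ((P.map e.toEmbedding).card : ℝ) / (Fintype.card T : ℝ) = den P := by
    intro P
    rw [card_map]
    rfl
  refine ⟨fun v => e.symm (atm (Fintype.card T) id (fun _ => 0) f v), ?_, ?_, ?_⟩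
  · intro v P
    rw [hcl, ← hden]
    refine (hf1 v _).1.trans ?_
    exact mul_le_mul_of_nonneg_right (min_le_left _ _) (Nat.cast_nonneg _)
  · intro v P
    rw [hcl, ← hden]
    refine (hf1 v _).2.trans ?_
    have : min σ 1 * (d : ℝ) ^ 2 ≤ σ * (d : ℝ) ^ 2 :=
      mul_le_mul_of_nonneg_right (min_le_left _ _) (by positivity)
    linarith
  · intro P Q L w R S θ1 θ2 hPQ hP hw hL h1 h2 hRS hc
    obtain ⟨g1, g2, g3⟩ := hf2 (P.map e.toEmbedding) (Q.map e.toEmbedding) L w R S θ1 θ2
      (by rw [card_map, card_map, hPQ]) (by rwa [map_nonempty]) hw hL h1 h2 hRS hc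
    unfold Good
    rw [hcl, hcl]
    rw [hden] at g1 g2 g3
    have hp0 := den_nonneg P
    have hp1 := den_le_one P
    have hm0 : 0 ≤ min σ 1 := by positivity
    have hm1 : min σ 1 ≤ σ := min_le_left _ _
    set A := hit G θ2 S with hA
    set B := hit G θ1 R with hB
    set CP := cc (Fintype.card T) id (fun _ => 0) f (P.map e.toEmbedding) with hCP
    set CQ := cc (Fintype.card T) id (fun _ => 0) f (Q.map e.toEmbedding) with hCQ
    set p := den P with hp
    have hs : (0 : ℝ) ≤ (A.card : ℝ) + B.card := by positivity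
    have hk : min σ 1 / 2 * p * ((A.card : ℝ) + B.card) ≤ min σ 1 / 2 * ((A.card : ℝ) + B.card) := by
      apply mul_le_mul_of_nonneg_right _ hs
      nlinarith
    have hk2 : min σ 1 / 2 * ((A.card : ℝ) + B.card) ≤ σ * ((A.card : ℝ) + B.card) :=
      mul_le_mul_of_nonneg_right (by linarith) hs
    refine ⟨?_, g2.trans (hk.trans hk2), g3.trans (hk.trans hk2)⟩
    have hB2 : CQ \ (B ∩ CQ) = CQ \ B := by
      ext x
      simp only [mem_sdiff, mem_inter]
      tauto
    unfold ff at g1
    rw [hB2] at g1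
    have hd0 : (0 : ℝ) ≤ d := Nat.cast_nonneg _
    have e1 : ee G (A ∩ CP) (CQ \ B) - p ^ 2 * ee G A (univ \ B) =
        (ee G (A ∩ CP) (CQ \ B) + p * d / 2 * (((B ∩ CQ).card : ℝ) - (A ∩ CP).card) -
          p ^ 2 * (ee G A (univ \ B) + d / 2 * ((B.card : ℝ) - A.card))) +
        (p * d / 2 * (((A ∩ CP).card : ℝ) - p * A.card) -
          p * d / 2 * (((B ∩ CQ).card : ℝ) - p * B.card)) := by ring
    rw [e1]
    have hq : 0 ≤ p * d / 2 := by positivity
    have g2' := mul_le_mul_of_nonneg_left g2 hq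
    have g3' := mul_le_mul_of_nonneg_left g3 hq
    have a2 : |p * d / 2 * (((A ∩ CP).card : ℝ) - p * A.card)| ≤
        p * d / 2 * (min σ 1 / 2 * p * ((A.card : ℝ) + B.card)) := by
      rw [abs_mul, abs_of_nonneg hq]
      exact g2'
    have a3 : |p * d / 2 * (((B ∩ CQ).card : ℝ) - p * B.card)| ≤
        p * d / 2 * (min σ 1 / 2 * p * ((A.card : ℝ) + B.card)) := by
      rw [abs_mul, abs_of_nonneg hq]
      exact g3'
    refine (abs_add_le _ _).trans ?_
    refine (add_le_add g1 ((abs_sub _ _).trans (add_le_add a2 a3))).trans ?_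
    have e2 : min σ 1 / 2 * p ^ 2 * d * ((A.card : ℝ) + B.card) +
        (p * d / 2 * (min σ 1 / 2 * p * ((A.card : ℝ) + B.card)) +
          p * d / 2 * (min σ 1 / 2 * p * ((A.card : ℝ) + B.card))) =
        min σ 1 * p ^ 2 * (d * ((A.card : ℝ) + B.card)) := by ring
    rw [e2]
    have e3 : min σ 1 * p ^ 2 ≤ σ := by
      have : p ^ 2 ≤ 1 := by nlinarith
      nlinarith
    calc min σ 1 * p ^ 2 * (d * ((A.card : ℝ) + B.card)) ≤ σ * (d * ((A.card : ℝ) + B.card)) :=
          mul_le_mul_of_nonneg_right e3 (mul_nonneg hd0 hs)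
      _ = σ * d * ((A.card : ℝ) + B.card) := by ring

end Pool.Agent.Work.MP_db9399_bg.helper67
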